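import Pool.Agent.Helper6.O3.St

/-!
Project O3, module RR: real roots of a cubic.
-/

set_option autoImplicit false

namespace Pool.Agent.Helper98.O3

open Pool.Agent.Helper6.O3 Filter Topology
open Pool.Agent.Helper99.DF (T TL sq chk Cert ver StVER StTRA StCMP StSND StPR1 StPRC StVP)

/-- RR. -/
theorem hRR : StRR := by
  intro p q r hp hq hr hdis
  -- a positive root
  obtain ⟨α, hα, hf⟩ : ∃ α : ℝ, 0 < α ∧ α ^ 3 - p * α ^ 2 - q * α - r = 0 := by
    have hc : ContinuousOn (fun x : ℝ => x ^ 3 - p * x ^ 2 - q * x - r)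
        (Set.Icc 0 (p + 1 + r)) := by fun_prop
    have h0 : (0 : ℝ) ≤ p + 1 + r := by positivity
    have h1 := intermediate_value_Icc h0 hc
    have h2 : (0 : ℝ) ∈ Set.Icc ((fun x : ℝ => x ^ 3 - p * x ^ 2 - q * x - r) 0)
        ((fun x : ℝ => x ^ 3 - p * x ^ 2 - q * x - r) (p + 1 + r)) := by
      constructor
      · simp only
        nlinarith
      · simp only
        have e1 : (p + 1 + r) ^ 3 - p * (p + 1 + r) ^ 2 - q * (p + 1 + r) - r =
            (p + 1 + r) ^ 2 * (1 + r) + (-q) * (p + 1 + r) - r := by ring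
        rw [e1]
        have h3 : 0 ≤ (-q) * (p + 1 + r) := mul_nonneg (by linarith) h0
        have h4 : 1 ≤ (p + 1 + r) ^ 2 := one_le_pow₀ (by linarith)
        have h5 : 1 * (1 + r) ≤ (p + 1 + r) ^ 2 * (1 + r) :=
          mul_le_mul_of_nonneg_right h4 (by linarith)
        linarith
    obtain ⟨α, ⟨ha, -⟩, hfa⟩ := h1 h2
    simp only at hfa
    rcases eq_or_lt_of_le ha with h | h
    · rw [← h] at hfa
      exfalso
      nlinarith
    · exact ⟨α, h, hfa⟩
  have hα0 : α ≠ 0 := hα.ne'
  set s : ℝ := r / α with hs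
  have hsr : s * α = r := by rw [hs]; field_simp
  have hs0 : 0 < s := by positivity
  have hq' : q = -(s + α * (p - α)) := by
    have : (q + (s + α * (p - α))) * α = 0 := by
      linear_combination (-1 : ℝ) * hf + hsr
    rcases mul_eq_zero.1 this with h | h
    · linarith
    · exact absurd h hα0
  have hd : dis p q r = ((p - α) ^ 2 - 4 * s) * (2 * α ^ 2 - p * α + s) ^ 2 := by
    unfold dis
    rw [hq', ← hsr]
    ring
  by_cases hg : 2 * α ^ 2 - p * α + s = 0
  · refine ⟨α, α, p - 2 * α, hα, hα, ?_, by ring, ?_, ?_⟩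
    · have : α * (p - 2 * α) = s := by linear_combination (-1 : ℝ) * hg
      by_contra hcon
      push Not at hcon
      have : α * (p - 2 * α) ≤ 0 := mul_nonpos_of_nonneg_of_nonpos hα.le hcon
      linarith
    · rw [hq']
      linear_combination (-1 : ℝ) * hg
    · rw [← hsr]
      linear_combination α * hg
  · have hg2 : 0 < (2 * α ^ 2 - p * α + s) ^ 2 := by positivity
    have hD : 0 ≤ (p - α) ^ 2 - 4 * s := by
      rw [hd] at hdis
      by_contra hcon
      push Not at hcon
      have := mul_neg_of_neg_of_pos hcon hg2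
      linarith
    set D : ℝ := (p - α) ^ 2 - 4 * s with hDd
    have hsq : Real.sqrt D ^ 2 = D := Real.sq_sqrt hD
    set w : ℝ := Real.sqrt D with hw
    have hneg : ∀ x : ℝ, x ≤ 0 → x ^ 2 - (p - α) * x + s ≠ 0 := by
      intro x hx h
      have h1 : x ^ 3 - p * x ^ 2 - q * x - r = 0 := by
        rw [hq', ← hsr]
        linear_combination (x - α) * h
      have h2 : x ^ 3 ≤ 0 := by
        have : x ^ 3 = x * x ^ 2 := by ring
        rw [this]
        exact mul_nonpos_of_nonpos_of_nonneg hx (sq_nonneg x)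
      have h3 : 0 ≤ p * x ^ 2 := by positivity
      have h4 : 0 ≤ q * x := mul_nonneg_of_nonpos_of_nonpos hq.le hx
      linarith
    have hb : ((p - α + w) / 2) ^ 2 - (p - α) * ((p - α + w) / 2) + s = 0 := by
      have : D = (p - α) ^ 2 - 4 * s := hDd
      linear_combination (1 / 4 : ℝ) * hsq + (1 / 4 : ℝ) * this
    have hc : ((p - α - w) / 2) ^ 2 - (p - α) * ((p - α - w) / 2) + s = 0 := by
      have : D = (p - α) ^ 2 - 4 * s := hDd
      linear_combination (1 / 4 : ℝ) * hsq + (1 / 4 : ℝ) * this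
    have hb0 : 0 < (p - α + w) / 2 := by
      by_contra h
      push Not at h
      exact hneg _ h hb
    have hc0 : 0 < (p - α - w) / 2 := by
      by_contra h
      push Not at h
      exact hneg _ h hc
    refine ⟨α, (p - α + w) / 2, (p - α - w) / 2, hα, hb0, hc0, by ring, ?_, ?_⟩
    · rw [hq']
      have : D = (p - α) ^ 2 - 4 * s := hDd
      linear_combination (-1 / 4 : ℝ) * hsq - (1 / 4 : ℝ) * this
    · rw [← hsr]
      have : D = (p - α) ^ 2 - 4 * s := hDd
      linear_combination (α / 4 : ℝ) * hsq + (α / 4 : ℝ) * this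

end Pool.Agent.Helper98.O3
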